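import Mathlib

namespace Pool.Agent.Lib.MP_deb411_al

section Holder

variable {T : Type} [Group T] [LinearOrder T] [MulLeftMono T] [MulRightMono T]

omit [MulRightMono T] in
theorem zpow_sm {x : T} (hx : 1 < x) : StrictMono (fun n : ℤ => x ^ n) := by
  apply strictMono_int_of_lt_succ
  intro n
  rw [zpow_add_one]
  exact lt_mul_of_one_lt_right' _ hx

omit [MulRightMono T] in
theorem zpow_le_iff {x : T} (hx : 1 < x) {m n : ℤ} : x ^ m ≤ x ^ n ↔ m ≤ n :=
  (zpow_sm hx).le_iff_le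

theorem mul_pow_le {z w : T} (h : z * w ≤ w * z) (k : ℕ) : z * w ^ k ≤ w ^ k * z := by
  induction k with
  | zero => simp
  | succ k ih =>
    calc z * w ^ (k + 1) = (z * w ^ k) * w := by rw [pow_succ, mul_assoc]
      _ ≤ (w ^ k * z) * w := mul_le_mul_left ih _
      _ = w ^ k * (z * w) := by rw [mul_assoc]
      _ ≤ w ^ k * (w * z) := mul_le_mul_right h _
      _ = w ^ (k + 1) * z := by rw [pow_succ, mul_assoc]

theorem pow_mul_le {z w : T} (h : z * w ≤ w * z) (k : ℕ) : z ^ k * w ≤ w * z ^ k := by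
  induction k with
  | zero => simp
  | succ k ih =>
    calc z ^ (k + 1) * w = z ^ k * (z * w) := by rw [pow_succ, mul_assoc]
      _ ≤ z ^ k * (w * z) := mul_le_mul_right h _
      _ = (z ^ k * w) * z := by rw [mul_assoc]
      _ ≤ (w * z ^ k) * z := mul_le_mul_left ih _
      _ = w * z ^ (k + 1) := by rw [pow_succ, mul_assoc]

theorem le_mul_pow {z w : T} (h : z * w ≤ w * z) (k : ℕ) : z ^ k * w ^ k ≤ (z * w) ^ k := by
  induction k with
  | zero => simp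
  | succ k ih =>
    calc z ^ (k + 1) * w ^ (k + 1) = z ^ k * (z * w ^ k) * w := by
          rw [pow_succ, pow_succ]; simp only [mul_assoc]
      _ ≤ z ^ k * (w ^ k * z) * w := mul_le_mul_left (mul_le_mul_right (mul_pow_le h k) _) _
      _ = (z ^ k * w ^ k) * (z * w) := by simp only [mul_assoc]
      _ ≤ (z * w) ^ k * (z * w) := mul_le_mul_left ih _
      _ = (z * w) ^ (k + 1) := by rw [pow_succ]

theorem mul_pow_le' {z w : T} (h : z * w ≤ w * z) (k : ℕ) : (z * w) ^ k ≤ w ^ k * z ^ k := by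
  induction k with
  | zero => simp
  | succ k ih =>
    calc (z * w) ^ (k + 1) = (z * w) ^ k * (z * w) := by rw [pow_succ]
      _ ≤ (w ^ k * z ^ k) * (z * w) := mul_le_mul_left ih _
      _ = w ^ k * (z ^ (k + 1) * w) := by rw [pow_succ]; simp only [mul_assoc]
      _ ≤ w ^ k * (w * z ^ (k + 1)) := mul_le_mul_right (pow_mul_le h _) _
      _ = w ^ (k + 1) * z ^ (k + 1) := by rw [pow_succ w k]; simp only [mul_assoc]

theorem mul_pow_le'' {z w : T} (h : z * w ≤ w * z) (k : ℕ) : (w * z) ^ k ≤ w ^ k * z ^ k := by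
  induction k with
  | zero => simp
  | succ k ih =>
    calc (w * z) ^ (k + 1) = (w * z) ^ k * (w * z) := by rw [pow_succ]
      _ ≤ (w ^ k * z ^ k) * (w * z) := mul_le_mul_left ih _
      _ = w ^ k * (z ^ k * w) * z := by simp only [mul_assoc]
      _ ≤ w ^ k * (w * z ^ k) * z := mul_le_mul_left (mul_le_mul_right (pow_mul_le h _) _) _
      _ = w ^ (k + 1) * z ^ (k + 1) := by rw [pow_succ w k, pow_succ z k]; simp only [mul_assoc]

theorem le_mul_pow' {z w : T} (h : z * w ≤ w * z) (k : ℕ) : z ^ k * w ^ k ≤ (w * z) ^ k :=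
  (le_mul_pow h k).trans (pow_le_pow_left' h k)

/-- The convex subgroup generated by `x`. -/
def Cx (x : T) : Subgroup T where
  carrier := {z | ∃ n : ℕ, (x ^ n)⁻¹ ≤ z ∧ z ≤ x ^ n}
  one_mem' := ⟨0, by simp, by simp⟩
  mul_mem' := by
    rintro a b ⟨n, h1, h2⟩ ⟨m, h3, h4⟩
    refine ⟨m + n, ?_, ?_⟩
    · rw [pow_add, mul_inv_rev]
      exact mul_le_mul' h1 h3
    · rw [add_comm, pow_add]
      exact mul_le_mul' h2 h4
  inv_mem' := by
    rintro a ⟨n, h1, h2⟩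
    exact ⟨n, inv_le_inv_iff.mpr h2, by simpa using inv_le_inv_iff.mpr h1⟩

theorem mem_Cx {x z : T} : z ∈ Cx x ↔ ∃ n : ℕ, (x ^ n)⁻¹ ≤ z ∧ z ≤ x ^ n := Iff.rfl

theorem self_mem_Cx {x : T} (hx : 1 < x) : x ∈ Cx x :=
  ⟨1, by simpa using (inv_le_one'.mpr hx.le).trans hx.le, by simp⟩

theorem Cx_convex {x z a b : T} (ha : a ∈ Cx x) (hb : b ∈ Cx x) (h1 : a ≤ z) (h2 : z ≤ b)
    (hx : 1 < x) : z ∈ Cx x := by
  obtain ⟨n, h3, -⟩ := ha
  obtain ⟨m, -, h4⟩ := hb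
  refine ⟨max n m, ?_, ?_⟩
  · refine le_trans ?_ (h3.trans h1)
    rw [inv_le_inv_iff]
    exact pow_le_pow_right' hx.le (le_max_left _ _)
  · exact (h2.trans h4).trans (pow_le_pow_right' hx.le (le_max_right _ _))

theorem compare {x z : T} (hx : 1 < x) {p p' : ℤ} {q q' : ℕ} (h1 : x ^ p ≤ z ^ q)
    (h2 : z ^ q' ≤ x ^ p') : p * q' ≤ p' * q := by
  rw [← zpow_le_iff hx, zpow_mul, zpow_mul, zpow_natCast, zpow_natCast]
  calc (x ^ p) ^ q' ≤ (z ^ q) ^ q' := pow_le_pow_left' h1 _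
    _ = (z ^ q') ^ q := by rw [← pow_mul, ← pow_mul, mul_comm]
    _ ≤ (x ^ p') ^ q := pow_le_pow_left' h2 _

/-- The Hölder map. -/
noncomputable def phi (x z : T) : ℝ :=
  sSup {r : ℝ | ∃ (p : ℤ) (q : ℕ), 0 < q ∧ x ^ p ≤ z ^ q ∧ r = p / q}

theorem phi_lower {x z : T} (hx : 1 < x) (hz : z ∈ Cx x) {p : ℤ} {q : ℕ} (hq : 0 < q)
    (h : x ^ p ≤ z ^ q) : (p : ℝ) ≤ q * phi x z := by
  obtain ⟨n, -, hn⟩ := hz
  have hb : BddAbove {r : ℝ | ∃ (p : ℤ) (q : ℕ), 0 < q ∧ x ^ p ≤ z ^ q ∧ r = p / q} := by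
    refine ⟨n, ?_⟩
    rintro r ⟨p, q, hq, h1, rfl⟩
    have h2 : z ^ 1 ≤ x ^ (n : ℤ) := by simpa using hn
    have h3 := compare hx h1 h2
    rw [div_le_iff₀ (by exact_mod_cast hq)]
    simp only [Nat.cast_one, mul_one] at h3
    exact_mod_cast h3
  have h1 : (p : ℝ) / q ≤ phi x z := le_csSup hb ⟨p, q, hq, h, rfl⟩
  rw [div_le_iff₀ (by exact_mod_cast hq)] at h1
  linarith

theorem phi_upper {x z : T} (hx : 1 < x) (hz : z ∈ Cx x) {p : ℤ} {q : ℕ} (hq : 0 < q)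
    (h : z ^ q ≤ x ^ p) : q * phi x z ≤ (p : ℝ) := by
  obtain ⟨n, hn, -⟩ := hz
  have h1 : phi x z ≤ (p : ℝ) / q := by
    refine csSup_le ⟨((-n : ℤ) : ℝ) / (1 : ℕ), -n, 1, one_pos, ?_, rfl⟩ ?_
    · simpa using hn
    · rintro r ⟨p', q', hq', h1, rfl⟩
      have h3 := compare hx h1 h
      rw [div_le_div_iff₀ (by exact_mod_cast hq') (by exact_mod_cast hq)]
      exact_mod_cast h3
  rw [le_div_iff₀ (by exact_mod_cast hq)] at h1
  linarith

theorem exists_floor {x z : T} (hx : 1 < x) (hz : z ∈ Cx x) :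
    ∃ n : ℤ, x ^ n ≤ z ∧ z ≤ x ^ (n + 1) := by
  obtain ⟨m, h1, h2⟩ := hz
  have := Int.exists_greatest_of_bdd (P := fun n : ℤ => x ^ n ≤ z)
    ⟨m, fun n hn => by
      have h3 : x ^ n ≤ x ^ (m : ℤ) := by simpa using hn.trans h2
      exact (zpow_le_iff hx).mp h3⟩ ⟨-m, by simpa using h1⟩
  obtain ⟨n, hn, hn'⟩ := this
  refine ⟨n, hn, ?_⟩
  by_contra hcon
  push Not at hcon
  have := hn' (n + 1) hcon.le
  omega

theorem eq_of_bounded {a b c : ℝ} (h : ∀ k : ℕ, 0 < k → |k * a - k * b| ≤ c) : a = b := by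
  by_contra hne
  have hpos : 0 < |a - b| := abs_pos.mpr (sub_ne_zero.mpr hne)
  obtain ⟨k, hk⟩ := exists_nat_gt (c / |a - b|)
  rw [div_lt_iff₀ hpos] at hk
  have hk0 : 0 < k + 1 := Nat.succ_pos k
  have h1 := h (k + 1) hk0
  rw [← mul_sub, abs_mul, Nat.abs_cast] at h1
  push_cast at h1
  nlinarith

theorem phi_mul_gen {x z w u : T} (hx : 1 < x) (hz : z ∈ Cx x) (hw : w ∈ Cx x)
    (hu : u ∈ Cx x) (h1 : ∀ k : ℕ, z ^ k * w ^ k ≤ u ^ k) (h2 : ∀ k : ℕ, u ^ k ≤ w ^ k * z ^ k) :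
    phi x u = phi x z + phi x w := by
  apply eq_of_bounded (c := 2)
  intro k hk
  obtain ⟨n, h3, h4⟩ := exists_floor hx ((Cx x).pow_mem hz k)
  obtain ⟨m, h5, h6⟩ := exists_floor hx ((Cx x).pow_mem hw k)
  have h7 := phi_lower hx hz hk h3
  have h8 := phi_upper hx hz hk h4
  have h9 := phi_lower hx hw hk h5
  have h10 := phi_upper hx hw hk h6
  have h11 : x ^ (n + m) ≤ u ^ k := by
    rw [zpow_add]
    exact (mul_le_mul' h3 h5).trans (h1 k)
  have h12 : u ^ k ≤ x ^ ((m + 1) + (n + 1)) := by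
    rw [zpow_add]
    exact (h2 k).trans (mul_le_mul' h6 h4)
  have h13 := phi_lower hx hu hk h11
  have h14 := phi_upper hx hu hk h12
  push_cast at *
  rw [abs_le]
  constructor <;> nlinarith

theorem phi_mul {x z w : T} (hx : 1 < x) (hz : z ∈ Cx x) (hw : w ∈ Cx x) :
    phi x (z * w) = phi x z + phi x w := by
  rcases le_total (z * w) (w * z) with h | h
  · exact phi_mul_gen hx hz hw ((Cx x).mul_mem hz hw) (le_mul_pow h) (mul_pow_le' h)
  · rw [add_comm]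
    exact phi_mul_gen hx hw hz ((Cx x).mul_mem hz hw) (le_mul_pow' h) (mul_pow_le'' h)

theorem phi_one {x : T} (hx : 1 < x) : phi x 1 = 0 := by
  have := phi_mul hx (Cx x).one_mem (Cx x).one_mem
  simpa using this

theorem phi_inv {x z : T} (hx : 1 < x) (hz : z ∈ Cx x) : phi x z⁻¹ = - phi x z := by
  have := phi_mul hx ((Cx x).inv_mem hz) hz
  rw [inv_mul_cancel, phi_one hx] at this
  linarith

theorem phi_pow {x z : T} (hx : 1 < x) (hz : z ∈ Cx x) (k : ℕ) : phi x (z ^ k) = k * phi x z := by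
  induction k with
  | zero => simp [phi_one hx]
  | succ k ih =>
    rw [pow_succ, phi_mul hx ((Cx x).pow_mem hz k) hz, ih]
    push_cast
    ring

theorem phi_zpow {x z : T} (hx : 1 < x) (hz : z ∈ Cx x) (k : ℤ) : phi x (z ^ k) = k * phi x z := by
  cases k with
  | ofNat k => simpa using phi_pow hx hz k
  | negSucc k =>
    rw [zpow_negSucc, phi_inv hx ((Cx x).pow_mem hz _), phi_pow hx hz]
    push_cast
    ring

theorem phi_self {x : T} (hx : 1 < x) : phi x x = 1 := by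
  have h1 := phi_lower hx (self_mem_Cx hx) (p := 1) (q := 1) one_pos (by simp)
  have h2 := phi_upper hx (self_mem_Cx hx) (p := 1) (q := 1) one_pos (by simp)
  push_cast at *
  linarith

theorem phi_nonneg {x z : T} (hx : 1 < x) (hz : z ∈ Cx x) (h : 1 ≤ z) : 0 ≤ phi x z := by
  have := phi_lower hx hz (p := 0) (q := 1) one_pos (by simpa using h)
  simpa using this

theorem phi_mono {x z w : T} (hx : 1 < x) (hz : z ∈ Cx x) (hw : w ∈ Cx x) (h : z ≤ w) :
    phi x z ≤ phi x w := by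
  have h1 : 1 ≤ w * z⁻¹ := by
    rw [← div_eq_mul_inv, one_le_div']
    exact h
  have h2 := phi_nonneg hx ((Cx x).mul_mem hw ((Cx x).inv_mem hz)) h1
  rw [phi_mul hx hw ((Cx x).inv_mem hz), phi_inv hx hz] at h2
  linarith

/-- Conjugation by an element normalising the convex subgroup scales the Hölder map. -/
theorem phi_conj {x y : T} (hx : 1 < x) (hy : ∀ z ∈ Cx x, y⁻¹ * z * y ∈ Cx x) {z : T}
    (hz : z ∈ Cx x) : phi x (y⁻¹ * z * y) = phi x (y⁻¹ * x * y) * phi x z := by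
  have hxy := hy x (self_mem_Cx hx)
  have hx1 : 1 ≤ y⁻¹ * x * y := by
    have : y⁻¹ * 1 * y ≤ y⁻¹ * x * y := mul_le_mul_left (mul_le_mul_right hx.le _) _
    simpa using this
  have hs : 0 ≤ phi x (y⁻¹ * x * y) := phi_nonneg hx hxy hx1
  apply eq_of_bounded (c := phi x (y⁻¹ * x * y))
  intro k hk
  obtain ⟨n, h3, h4⟩ := exists_floor hx ((Cx x).pow_mem hz k)
  have h7 := phi_lower hx hz hk h3
  have h8 := phi_upper hx hz hk h4
  have e1 : ∀ m : ℤ, y⁻¹ * x ^ m * y = (y⁻¹ * x * y) ^ m := by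
    intro m
    have := (conj_zpow (a := y⁻¹) (b := x) (i := m))
    simpa using this.symm
  have e2 : y⁻¹ * z ^ k * y = (y⁻¹ * z * y) ^ k := by
    have := (conj_pow (a := y⁻¹) (b := z) (i := k))
    simpa using this.symm
  have h9 : y⁻¹ * x ^ n * y ≤ y⁻¹ * z ^ k * y := mul_le_mul_left (mul_le_mul_right h3 _) _
  have h10 : y⁻¹ * z ^ k * y ≤ y⁻¹ * x ^ (n + 1) * y := mul_le_mul_left (mul_le_mul_right h4 _) _
  rw [e1, e2] at h9 h10
  have h11 := phi_mono hx ((Cx x).zpow_mem hxy n) ((Cx x).pow_mem (hy z hz) k) h9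
  have h12 := phi_mono hx ((Cx x).pow_mem (hy z hz) k) ((Cx x).zpow_mem hxy (n + 1)) h10
  rw [phi_zpow hx hxy, phi_pow hx (hy z hz)] at h11 h12
  push_cast at *
  rw [abs_le]
  constructor <;> nlinarith

end Holder

end Pool.Agent.Lib.MP_deb411_al
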