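import Pool.Agent.Lib.MP_deb411_al.Quot
import Pool.Agent.Lib.MP_deb411_al.Holder

namespace Pool.Agent.Lib.MP_deb411_al

/-- The reals extended by an infinite cyclic group acting by multiplication with powers of
`t`, ordered lexicographically. -/
@[ext] structure BG (t : Set.Ioi (0 : ℝ)) where
  i : ℤ
  a : ℝ

namespace BG

variable {t : Set.Ioi (0 : ℝ)}

theorem tpos (t : Set.Ioi (0 : ℝ)) : 0 < (t : ℝ) := t.2

theorem tne (t : Set.Ioi (0 : ℝ)) : (t : ℝ) ≠ 0 := t.2.ne'

noncomputable instance : Mul (BG t) := ⟨fun g h => ⟨g.i + h.i, g.a + (t : ℝ) ^ (-g.i) * h.a⟩⟩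
instance : One (BG t) := ⟨⟨0, 0⟩⟩
noncomputable instance : Inv (BG t) := ⟨fun g => ⟨-g.i, -((t : ℝ) ^ g.i * g.a)⟩⟩

@[simp] theorem mul_i (g h : BG t) : (g * h).i = g.i + h.i := rfl
@[simp] theorem mul_a (g h : BG t) : (g * h).a = g.a + (t : ℝ) ^ (-g.i) * h.a := rfl
@[simp] theorem one_i : (1 : BG t).i = 0 := rfl
@[simp] theorem one_a : (1 : BG t).a = 0 := rfl
@[simp] theorem inv_i (g : BG t) : (g⁻¹).i = -g.i := rfl
@[simp] theorem inv_a (g : BG t) : (g⁻¹).a = -((t : ℝ) ^ g.i * g.a) := rfl

noncomputable instance : Group (BG t) :=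
  Group.ofLeftAxioms
    (by
      intro g h k
      ext
      · simp [add_assoc]
      · simp only [mul_a, mul_i, neg_add, zpow_add₀ (tne t)]
        ring)
    (by
      intro g
      ext <;> simp)
    (by
      intro g
      ext
      · simp
      · simp)

/-- The embedding into the lexicographic product. -/
def toLexProd (g : BG t) : ℤ ×ₗ ℝ := toLex (g.i, g.a)

theorem toLexProd_injective : Function.Injective (toLexProd (t := t)) := by
  intro g h hgh
  have : (g.i, g.a) = (h.i, h.a) := hgh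
  rw [Prod.mk.injEq] at this
  exact BG.ext this.1 this.2

noncomputable instance : LinearOrder (BG t) := LinearOrder.lift' toLexProd toLexProd_injective

theorem le_iff (g h : BG t) : g ≤ h ↔ g.i < h.i ∨ (g.i = h.i ∧ g.a ≤ h.a) := by
  change toLexProd g ≤ toLexProd h ↔ _
  unfold toLexProd
  rw [Prod.Lex.le_iff]
  rfl

instance : MulLeftMono (BG t) := by
  refine ⟨fun g h k hk => ?_⟩
  rw [le_iff] at *
  rcases hk with h1 | ⟨h1, h2⟩
  · left; simpa using h1
  · right
    refine ⟨by simpa using h1, ?_⟩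
    have : 0 < (t : ℝ) ^ (-g.i) := zpow_pos (tpos t) _
    simp only [mul_a]
    nlinarith

instance : MulRightMono (BG t) := by
  refine ⟨fun g h k hk => ?_⟩
  simp only [Function.swap]
  rw [le_iff] at *
  rcases hk with h1 | ⟨h1, h2⟩
  · left; simpa using h1
  · right
    refine ⟨by simpa using h1, ?_⟩
    simp only [mul_a]
    rw [h1]
    linarith

end BG

/-- `BG t` as an l-group. -/
noncomputable def Bt (t : Set.Ioi (0 : ℝ)) : LGroup := LGroup.of (BG t)

theorem Bt_total (t : Set.Ioi (0 : ℝ)) : (Bt t).IsTotal := fun a b => le_total (α := BG t) a b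

/-- A sub-l-group of `BG t`. -/
noncomputable def Ht {t : Set.Ioi (0 : ℝ)} (H : Subgroup (BG t)) : LGroup where
  carrier := H
  mono := fun a b x y h => mul_le_mul_left (mul_le_mul_right (α := BG t) h (a : BG t)) (b : BG t)

theorem Ht_total {t : Set.Ioi (0 : ℝ)} (H : Subgroup (BG t)) : (Ht H).IsTotal :=
  fun a b => le_total (α := H) a b

theorem Ht_hom {t : Set.Ioi (0 : ℝ)} (H : Subgroup (BG t)) :
    IsLHom (Ht H) (Bt t) (fun h : H => (h : BG t)) := by
  have hm : Monotone (fun h : H => (h : BG t)) := fun a b h => h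
  refine ⟨fun a b => rfl, ?_, ?_⟩
  · intro a b
    exact hm.map_inf a b
  · intro a b
    exact hm.map_sup a b

theorem Ht_satisfies {t : Set.Ioi (0 : ℝ)} (H : Subgroup (BG t)) (e : LTerm × LTerm)
    (he : (Bt t).Satisfies e) : (Ht H).Satisfies e :=
  (Ht_hom H).satisfies_of_injective Subtype.val_injective e he

end Pool.Agent.Lib.MP_deb411_al
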