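import Pool.Agent.Lib.MP_deb411_al.Defs

namespace Pool.Agent.Lib.MP_deb411_al

instance instMLM (G : LGroup) : MulLeftMono G.carrier :=
  ⟨fun a b c h => by simpa using G.mono a 1 b c h⟩

instance instMRM (G : LGroup) : MulRightMono G.carrier :=
  ⟨fun a b c h => by simpa [Function.swap] using G.mono 1 a b c h⟩

/-- Build an l-group from classes. -/
def LGroup.of (A : Type) [Group A] [Lattice A] [MulLeftMono A] [MulRightMono A] : LGroup where
  carrier := A
  mono := fun a b x y h => mul_le_mul_left (mul_le_mul_right h a) b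

/-- A relation between two l-groups compatible with all operations. -/
structure Compat (G H : LGroup) (R : G.carrier → H.carrier → Prop) : Prop where
  one : R 1 1
  mul : ∀ a b c d, R a b → R c d → R (a * c) (b * d)
  inv : ∀ a b, R a b → R a⁻¹ b⁻¹
  inf : ∀ a b c d, R a b → R c d → R (a ⊓ c) (b ⊓ d)
  sup : ∀ a b c d, R a b → R c d → R (a ⊔ c) (b ⊔ d)

theorem Compat.eval {G H : LGroup} {R : G.carrier → H.carrier → Prop} (h : Compat G H R)
    (u : ℕ → G.carrier) (v : ℕ → H.carrier) (huv : ∀ n, R (u n) (v n)) (t : LTerm) :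
    R (t.eval G u) (t.eval H v) := by
  induction t with
  | var n => exact huv n
  | one => exact h.one
  | mul s t hs ht => exact h.mul _ _ _ _ hs ht
  | inv t ht => exact h.inv _ _ ht
  | inf s t hs ht => exact h.inf _ _ _ _ hs ht
  | sup s t hs ht => exact h.sup _ _ _ _ hs ht

/-- If every element of `H` is related to an element of `G` by a compatible relation that
is functional, then `H` satisfies all identities of `G`. -/
theorem Compat.satisfies {G H : LGroup} {R : G.carrier → H.carrier → Prop} (h : Compat G H R)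
    (hs : ∀ b, ∃ a, R a b) (hf : ∀ a b b', R a b → R a b' → b = b') (e : LTerm × LTerm)
    (he : G.Satisfies e) : H.Satisfies e := by
  intro v
  choose u hu using hs
  have h1 := h.eval (fun n => u (v n)) v (fun n => hu (v n)) e.1
  have h2 := h.eval (fun n => u (v n)) v (fun n => hu (v n)) e.2
  rw [← he (fun n => u (v n))] at h2
  exact hf _ _ _ h1 h2

theorem IsLHom.map_one {G H : LGroup} {f : G.carrier → H.carrier} (h : IsLHom G H f) :
    f 1 = 1 := by
  have := h.map_mul 1 1
  simpa using this

theorem IsLHom.map_inv {G H : LGroup} {f : G.carrier → H.carrier} (h : IsLHom G H f)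
    (a : G.carrier) : f a⁻¹ = (f a)⁻¹ := by
  have h1 := h.map_mul a⁻¹ a
  rw [inv_mul_cancel, h.map_one] at h1
  exact eq_inv_of_mul_eq_one_left h1.symm

theorem IsLHom.compat {G H : LGroup} {f : G.carrier → H.carrier} (h : IsLHom G H f) :
    Compat G H (fun a b => f a = b) where
  one := h.map_one
  mul := by rintro a b c d rfl rfl; exact h.map_mul _ _
  inv := by rintro a b rfl; exact h.map_inv _
  inf := by rintro a b c d rfl rfl; exact h.map_inf _ _
  sup := by rintro a b c d rfl rfl; exact h.map_sup _ _

theorem IsLHom.eval {G H : LGroup} {f : G.carrier → H.carrier} (h : IsLHom G H f)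
    (u : ℕ → G.carrier) (t : LTerm) : f (t.eval G u) = t.eval H (fun n => f (u n)) :=
  h.compat.eval u _ (fun _ => rfl) t

theorem IsLHom.satisfies {G H : LGroup} {f : G.carrier → H.carrier} (h : IsLHom G H f)
    (hs : Function.Surjective f) (e : LTerm × LTerm) (he : G.Satisfies e) : H.Satisfies e :=
  h.compat.satisfies hs (by rintro a b b' rfl rfl; rfl) e he

/-- Satisfaction of identities passes to sub-l-groups. -/
theorem IsLHom.satisfies_of_injective {G H : LGroup} {f : G.carrier → H.carrier}
    (h : IsLHom G H f) (hi : Function.Injective f) (e : LTerm × LTerm) (he : H.Satisfies e) :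
    G.Satisfies e := by
  intro v
  apply hi
  rw [h.eval, h.eval]
  exact he _

theorem IsVariety.mem_of_satisfies {V : Set LGroup} (hV : IsVariety V) {G H : LGroup}
    (hG : G ∈ V) (h : ∀ e, G.Satisfies e → H.Satisfies e) : H ∈ V := by
  obtain ⟨E, rfl⟩ := hV
  exact fun e he => h e (hG e he)

theorem IsVariety.inter {V W : Set LGroup} (hV : IsVariety V) (hW : IsVariety W) :
    IsVariety (V ∩ W) := by
  obtain ⟨E, rfl⟩ := hV
  obtain ⟨F, rfl⟩ := hW
  refine ⟨E ∪ F, ?_⟩
  ext G
  constructor
  · rintro ⟨h1, h2⟩ e (he | he)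
    · exact h1 e he
    · exact h2 e he
  · intro h
    exact ⟨fun e he => h e (Or.inl he), fun e he => h e (Or.inr he)⟩

/-- A totally ordered l-group is representable. -/
theorem mem_rep_of_total {G : LGroup} (h : G.IsTotal) : G ∈ Rep :=
  ⟨Unit, fun _ => G, fun _ => id, fun _ => h,
    fun _ => ⟨fun _ _ => rfl, fun _ _ => rfl, fun _ _ => rfl⟩,
    fun _ => Function.surjective_id, fun _ _ hab => hab ()⟩

/-- If an identity fails in a representable l-group then it fails in a totally ordered
quotient. -/
theorem exists_total_of_not_satisfies {G : LGroup} (hG : G ∈ Rep) {e : LTerm × LTerm}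
    (he : ¬ G.Satisfies e) :
    ∃ T : LGroup, T.IsTotal ∧ ¬ T.Satisfies e ∧ ∀ e', G.Satisfies e' → T.Satisfies e' := by
  obtain ⟨ι, T, f, hT, hf, hs, hj⟩ := hG
  unfold LGroup.Satisfies at he
  push Not at he
  obtain ⟨v, hv⟩ := he
  have : ∃ i, f i (e.1.eval G v) ≠ f i (e.2.eval G v) := by
    by_contra hcon
    push Not at hcon
    exact hv (hj _ _ hcon)
  obtain ⟨i, hi⟩ := this
  refine ⟨T i, hT i, ?_, fun e' he' => (hf i).satisfies (hs i) e' he'⟩
  intro hsat
  apply hi
  rw [(hf i).eval, (hf i).eval]
  exact hsat _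

end Pool.Agent.Lib.MP_deb411_al
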