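import Mathlib

/-!
Lattice-ordered groups, their terms and varieties, and representable ones.
-/

namespace Pool.Agent.Lib.MP_deb411_al

/-- A lattice-ordered group: a group with a lattice order such that `x ≤ y` implies
`a * x * b ≤ a * y * b` for all `a`, `b`. -/
structure LGroup : Type 1 where
  carrier : Type
  [grp : Group carrier]
  [lat : Lattice carrier]
  mono : ∀ a b x y : carrier, x ≤ y → a * x * b ≤ a * y * b

instance (G : LGroup) : Group G.carrier := G.grp

instance (G : LGroup) : Lattice G.carrier := G.lat

/-- Terms in the language of l-groups, in variables indexed by the natural numbers. -/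
inductive LTerm : Type
  | var (n : ℕ)
  | one
  | mul (s t : LTerm)
  | inv (t : LTerm)
  | inf (s t : LTerm)
  | sup (s t : LTerm)
  deriving DecidableEq, Countable

/-- The value of a term in an l-group `G` under an assignment `v` of its variables. -/
def LTerm.eval (G : LGroup) (v : ℕ → G.carrier) : LTerm → G.carrier
  | .var n => v n
  | .one => 1
  | .mul s t => s.eval G v * t.eval G v
  | .inv t => (t.eval G v)⁻¹
  | .inf s t => s.eval G v ⊓ t.eval G v
  | .sup s t => s.eval G v ⊔ t.eval G v

/-- `G` satisfies the identity `e.1 = e.2`. -/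
def LGroup.Satisfies (G : LGroup) (e : LTerm × LTerm) : Prop :=
  ∀ v : ℕ → G.carrier, e.1.eval G v = e.2.eval G v

/-- The class of all l-groups that satisfy every identity in `E`. -/
def Mod (E : Set (LTerm × LTerm)) : Set LGroup := {G | ∀ e ∈ E, G.Satisfies e}

/-- A class of l-groups is a variety if it is the class of all l-groups satisfying some
set of identities. -/
def IsVariety (V : Set LGroup) : Prop := ∃ E : Set (LTerm × LTerm), V = Mod E

/-- Homomorphisms of l-groups: maps that preserve products, meets and joins. -/
structure IsLHom (G H : LGroup) (f : G.carrier → H.carrier) : Prop where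
  map_mul : ∀ a b, f (a * b) = f a * f b
  map_inf : ∀ a b, f (a ⊓ b) = f a ⊓ f b
  map_sup : ∀ a b, f (a ⊔ b) = f a ⊔ f b

/-- The order of `G` is total. -/
def LGroup.IsTotal (G : LGroup) : Prop := ∀ a b : G.carrier, a ≤ b ∨ b ≤ a

/-- The class of representable l-groups: those that are a subdirect product of totally
ordered groups, that is, that have a family of surjective homomorphisms onto totally ordered
groups which jointly separate points. -/
def Rep : Set LGroup :=
  {G | ∃ (ι : Type) (T : ι → LGroup) (f : ∀ i, G.carrier → (T i).carrier),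
    (∀ i, (T i).IsTotal) ∧ (∀ i, IsLHom G (T i) (f i)) ∧
    (∀ i, Function.Surjective (f i)) ∧ ∀ a b, (∀ i, f i a = f i b) → a = b}

/-- For varieties `V` and `W`, `W` covers `V`: `V` is properly contained in `W`, with no
variety properly between them. -/
def Covers (W V : Set LGroup) : Prop :=
  V ⊂ W ∧ ¬ ∃ U : Set LGroup, IsVariety U ∧ V ⊂ U ∧ U ⊂ W

/-- The set `N` of all subvarieties of `Rep` that have no cover in `Rep`. -/
def NoCover : Set (Set LGroup) :=
  {V | IsVariety V ∧ V ⊆ Rep ∧ ¬ ∃ W : Set LGroup, IsVariety W ∧ W ⊆ Rep ∧ Covers W V}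

end Pool.Agent.Lib.MP_deb411_al
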