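import Pool.Agent.Lib.MP_deb411_al.BGrp

namespace Pool.Agent.Lib.MP_deb411_al

/-- Powers of a term. -/
def powT (t : LTerm) : ℕ → LTerm
  | 0 => .one
  | n + 1 => .mul (powT t n) t

theorem eval_powT (G : LGroup) (v : ℕ → G.carrier) (t : LTerm) (n : ℕ) :
    (powT t n).eval G v = (t.eval G v) ^ n := by
  induction n with
  | zero => simp [powT, LTerm.eval]
  | succ n ih => rw [pow_succ, ← ih]; rfl

/-- The absolute value of the first variable. -/
def absT : LTerm := .sup (.var 0) (.inv (.var 0))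

/-- Its conjugate by the second variable. -/
def conT : LTerm := .mul (.mul (.inv (.var 1)) absT) (.var 1)

/-- The identity saying that no conjugation scales by a factor between `p / q` and
`p' / q'`. -/
def eps (p q p' q' : ℕ) : LTerm × LTerm :=
  (.sup (.inf (.inf absT (.mul (powT conT q) (.inv (powT absT p))))
    (.mul (powT absT p') (.inv (powT conT q')))) .one, .one)

theorem sat_eps_iff (G : LGroup) (p q p' q' : ℕ) : G.Satisfies (eps p q p' q') ↔
    ∀ x y : G.carrier, (((x ⊔ x⁻¹) ⊓ ((y⁻¹ * (x ⊔ x⁻¹) * y) ^ q * ((x ⊔ x⁻¹) ^ p)⁻¹)) ⊓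
      ((x ⊔ x⁻¹) ^ p' * ((y⁻¹ * (x ⊔ x⁻¹) * y) ^ q')⁻¹)) ⊔ 1 = 1 := by
  constructor
  · intro h x y
    have := h (fun n => if n = 0 then x else y)
    simpa [eps, LTerm.eval, eval_powT, absT, conT] using this
  · intro h v
    have := h (v 0) (v 1)
    simpa [eps, LTerm.eval, eval_powT, absT, conT] using this

/-- A totally ordered l-group has a linear order. -/
@[implicit_reducible] noncomputable def LGroup.lin (T : LGroup) (hT : T.IsTotal) :
    LinearOrder T.carrier :=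
  { (inferInstance : Lattice T.carrier) with
    le_total := hT
    toDecidableLE := Classical.decRel _
    toDecidableLT := Classical.decRel _
    toDecidableEq := Classical.decEq _
    min := fun a b => a ⊓ b
    max := fun a b => a ⊔ b
    min_def := by
      intro a b
      split_ifs with h
      · exact inf_eq_left.mpr h
      · exact inf_eq_right.mpr ((hT a b).resolve_left h)
    max_def := by
      intro a b
      split_ifs with h
      · exact sup_eq_right.mpr h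
      · exact sup_eq_left.mpr ((hT a b).resolve_left h) }

theorem sat_eps_iff_of_total {T : LGroup} (hT : T.IsTotal) (p q p' q' : ℕ) :
    T.Satisfies (eps p q p' q') ↔
    ∀ x y : T.carrier, 1 < x → ¬ (x ^ p < (y⁻¹ * x * y) ^ q ∧ (y⁻¹ * x * y) ^ q' < x ^ p') := by
  have key : ∀ a b c : T.carrier, ((a ⊓ b) ⊓ c) ⊔ 1 = 1 ↔ ¬ (1 < a ∧ 1 < b ∧ 1 < c) := by
    intro a b c
    let L := T.lin hT
    have h0 : ∀ a b : T.carrier, b ≤ a ↔ ¬ a < b := fun a b => (@not_lt _ L a b).symm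
    have h1 : ∀ a b c : T.carrier, a < b ⊓ c ↔ a < b ∧ a < c :=
      fun a b c => @lt_min_iff _ L a b c
    rw [sup_eq_right, h0, not_iff_not, h1, h1, and_assoc]
  have key2 : ∀ a b : T.carrier, 1 < a * b⁻¹ ↔ b < a := by
    intro a b
    rw [← div_eq_mul_inv, one_lt_div']
  rw [sat_eps_iff]
  constructor
  · intro h x y hx
    have h1 := h x y
    have h2 : x ⊔ x⁻¹ = x := sup_eq_left.mpr ((inv_le_one'.mpr hx.le).trans hx.le)
    rw [h2, key, key2, key2] at h1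
    tauto
  · intro h x y
    rw [key, key2, key2]
    rintro ⟨h1, h2, h3⟩
    exact h _ y h1 ⟨h2, h3⟩

/-- The admissible quadruples for a set `S` of scalings. -/
def Adm (S : Set ℝ) (p q p' q' : ℕ) : Prop :=
  0 < p ∧ 0 < q ∧ 0 < p' ∧ 0 < q' ∧ ∀ σ ∈ S, ¬ ((p : ℝ) ≤ q * σ ∧ q' * σ ≤ (p' : ℝ))

/-- The variety attached to a set of scalings. -/
def VS (S : Set ℝ) : Set LGroup :=
  {G | G ∈ Rep ∧ ∀ p q p' q' : ℕ, Adm S p q p' q' → G.Satisfies (eps p q p' q')}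

theorem isVariety_VS (S : Set ℝ) : IsVariety (VS S) := by
  refine ⟨{rho} ∪ {e | ∃ p q p' q' : ℕ, Adm S p q p' q' ∧ e = eps p q p' q'}, ?_⟩
  ext G
  constructor
  · rintro ⟨h1, h2⟩ e (he | ⟨p, q, p', q', h3, rfl⟩)
    · rw [rep_eq] at h1
      exact h1 e he
    · exact h2 _ _ _ _ h3
  · intro h
    refine ⟨?_, fun p q p' q' h3 => h _ (Or.inr ⟨p, q, p', q', h3, rfl⟩)⟩
    rw [rep_eq]
    exact fun e he => h e (Or.inl he)

theorem VS_subset_Rep (S : Set ℝ) : VS S ⊆ Rep := fun _ h => h.1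

theorem VS_mono {S S' : Set ℝ} (h : S ⊆ S') : VS S ⊆ VS S' := by
  rintro G ⟨h1, h2⟩
  exact ⟨h1, fun p q p' q' h3 => h2 p q p' q'
    ⟨h3.1, h3.2.1, h3.2.2.1, h3.2.2.2.1, fun σ hσ => h3.2.2.2.2 σ (h hσ)⟩⟩

/-- A member of `W` outside `VS S` yields a totally ordered one, with a violating pair. -/
theorem exists_total_of_not_mem_VS {W : Set LGroup} (hW : IsVariety W) (hWR : W ⊆ Rep)
    {S : Set ℝ} (hne : ¬ W ⊆ VS S) :
    ∃ (T : LGroup), T.IsTotal ∧ T ∈ W ∧ ∃ (p q p' q' : ℕ) (x y : T.carrier),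
      Adm S p q p' q' ∧ 1 < x ∧ x ^ p < (y⁻¹ * x * y) ^ q ∧ (y⁻¹ * x * y) ^ q' < x ^ p' := by
  rw [Set.not_subset] at hne
  obtain ⟨G, hG, hGV⟩ := hne
  have : ∃ p q p' q' : ℕ, Adm S p q p' q' ∧ ¬ G.Satisfies (eps p q p' q') := by
    by_contra hcon
    push Not at hcon
    exact hGV ⟨hWR hG, hcon⟩
  obtain ⟨p, q, p', q', h1, h2⟩ := this
  obtain ⟨T, hT, h3, h4⟩ := exists_total_of_not_satisfies (hWR hG) h2
  refine ⟨T, hT, hW.mem_of_satisfies hG h4, p, q, p', q', ?_⟩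
  rw [sat_eps_iff_of_total hT] at h3
  push Not at h3
  obtain ⟨x, y, hx, h5, h6⟩ := h3
  exact ⟨x, y, h1, hx, h5, h6⟩

/-- `S` misses a neighbourhood of `s` in the positive reals. -/
def Sep (S : Set ℝ) (s : ℝ) : Prop :=
  ∃ a b : ℝ, 0 < a ∧ a < s ∧ s < b ∧ ∀ σ ∈ S, ¬ (a ≤ σ ∧ σ ≤ b)

theorem Sep.union {S S' : Set ℝ} {s : ℝ} (h : Sep S s) (h' : Sep S' s) : Sep (S ∪ S') s := by
  obtain ⟨a, b, h1, h2, h3, h4⟩ := h
  obtain ⟨a', b', h1', h2', h3', h4'⟩ := h'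
  refine ⟨max a a', min b b', lt_max_of_lt_left h1, max_lt h2 h2', lt_min h3 h3', ?_⟩
  rintro σ (hσ | hσ) ⟨h5, h6⟩
  · exact h4 σ hσ ⟨(le_max_left _ _).trans h5, h6.trans (min_le_left _ _)⟩
  · exact h4' σ hσ ⟨(le_max_right _ _).trans h5, h6.trans (min_le_right _ _)⟩

theorem exists_nat_ratio {a b : ℝ} (ha : 0 < a) (hab : a < b) :
    ∃ p q : ℕ, 0 < p ∧ 0 < q ∧ q * a < p ∧ (p : ℝ) < q * b := by
  obtain ⟨r, h1, h2⟩ := exists_rat_btwn hab
  have hr : 0 < r := by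
    have : (0 : ℝ) < r := ha.trans h1
    exact_mod_cast this
  have hnum : 0 < r.num := Rat.num_pos.mpr hr
  have hq : (0 : ℝ) < r.den := by exact_mod_cast r.den_pos
  have hr2 : (r : ℝ) = (r.num.toNat : ℝ) / r.den := by
    have h3 : (r : ℝ) = (r.num : ℝ) / r.den := by exact_mod_cast (Rat.num_div_den r).symm
    rw [h3]
    congr 1
    have : ((r.num.toNat : ℤ) : ℝ) = (r.num : ℝ) := by rw [Int.toNat_of_nonneg hnum.le]
    exact_mod_cast this.symm
  refine ⟨r.num.toNat, r.den, by omega, r.den_pos, ?_, ?_⟩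
  · rw [hr2, lt_div_iff₀ hq] at h1
    linarith
  · rw [hr2, div_lt_iff₀ hq] at h2
    linarith

theorem Sep.exists_adm {S : Set ℝ} {s : ℝ} (h : Sep S s) :
    ∃ p q p' q' : ℕ, Adm S p q p' q' ∧ (p : ℝ) < q * s ∧ q' * s < (p' : ℝ) := by
  obtain ⟨a, b, h1, h2, h3, h4⟩ := h
  obtain ⟨p, q, hp, hq, h5, h6⟩ := exists_nat_ratio h1 h2
  obtain ⟨p', q', hp', hq', h7, h8⟩ := exists_nat_ratio (h1.trans h2) h3
  refine ⟨p, q, p', q', ⟨hp, hq, hp', hq', ?_⟩, h6, h7⟩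
  rintro σ hσ ⟨h9, h10⟩
  have hq0 : (0 : ℝ) < q := by exact_mod_cast hq
  have hq0' : (0 : ℝ) < q' := by exact_mod_cast hq'
  apply h4 σ hσ
  constructor
  · by_contra hcon
    push Not at hcon
    nlinarith
  · by_contra hcon
    push Not at hcon
    nlinarith

end Pool.Agent.Lib.MP_deb411_al
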