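import Pool.Agent.Lib.MP_deb411_al.Rel

namespace Pool.Agent.Lib.MP_deb411_al

section Compute

variable {t : Set.Ioi (0 : ℝ)}

theorem BG.pow_i (g : BG t) (n : ℕ) : (g ^ n).i = n * g.i := by
  induction n with
  | zero => simp
  | succ n ih => rw [pow_succ, BG.mul_i, ih]; push_cast; ring

theorem BG.pow_zero_a (g : BG t) (hg : g.i = 0) (n : ℕ) : (g ^ n).a = n * g.a := by
  induction n with
  | zero => simp
  | succ n ih =>
    rw [pow_succ, BG.mul_a, ih, BG.pow_i, hg]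
    simp
    ring

theorem BG.conj_i (g h : BG t) : (h⁻¹ * g * h).i = g.i := by
  simp

theorem BG.conj_a (g h : BG t) (hg : g.i = 0) : (h⁻¹ * g * h).a = (t : ℝ) ^ h.i * g.a := by
  simp [hg]

theorem Bt_satisfies {S : Set ℝ} (hS : ∀ j : ℤ, (t : ℝ) ^ j ∈ S) {p q p' q' : ℕ}
    (h : Adm S p q p' q') : (Bt t).Satisfies (eps p q p' q') := by
  rw [sat_eps_iff_of_total (Bt_total t)]
  intro (x : BG t) (y : BG t) (hx : 1 < x)
  rintro ⟨h1, h2⟩
  change x ^ p < (y⁻¹ * x * y) ^ q at h1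
  change (y⁻¹ * x * y) ^ q' < x ^ p' at h2
  replace h1 := (BG.le_iff _ _).mp h1.le
  replace h2 := (BG.le_iff _ _).mp h2.le
  have hx1 := (BG.le_iff _ _).mp hx.le
  simp only [BG.pow_i, BG.conj_i, BG.one_i, BG.one_a] at h1 h2 hx1
  rcases hx1 with h3 | ⟨h3, h4⟩
  · have h5 : (p : ℤ) ≤ q := by
      have : (p : ℤ) * x.i ≤ q * x.i := by
        rcases h1 with h1 | ⟨h1, -⟩
        · exact h1.le
        · exact h1.le
      exact le_of_mul_le_mul_right this h3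
    have h6 : (q' : ℤ) ≤ p' := by
      have : (q' : ℤ) * x.i ≤ p' * x.i := by
        rcases h2 with h2 | ⟨h2, -⟩
        · exact h2.le
        · exact h2.le
      exact le_of_mul_le_mul_right this h3
    apply h.2.2.2.2 _ (hS 0)
    rw [zpow_zero, mul_one, mul_one]
    exact ⟨by exact_mod_cast h5, by exact_mod_cast h6⟩
  · have hx0 : x.i = 0 := h3.symm
    have hxa : 0 < x.a := by
      refine lt_of_le_of_ne h4 ?_
      intro h5
      apply hx.ne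
      exact BG.ext h3 h5
    rw [hx0] at h1 h2
    simp only [mul_zero, lt_irrefl, true_and, false_or] at h1 h2
    rw [BG.pow_zero_a _ hx0, BG.pow_zero_a _ (by rw [BG.conj_i, hx0]), BG.conj_a _ _ hx0] at h1 h2
    apply h.2.2.2.2 _ (hS y.i)
    constructor
    · have : (p : ℝ) * x.a ≤ (q * (t : ℝ) ^ y.i) * x.a := by linarith
      exact le_of_mul_le_mul_right this hxa
    · have : (q' * (t : ℝ) ^ y.i) * x.a ≤ (p' : ℝ) * x.a := by linarith
      exact le_of_mul_le_mul_right this hxa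

theorem Ht_mem_VS (H : Subgroup (BG t)) {S : Set ℝ} (hS : ∀ j : ℤ, (t : ℝ) ^ j ∈ S) :
    Ht H ∈ VS S :=
  ⟨mem_rep_of_total (Ht_total H), fun _ _ _ _ h => Ht_satisfies H _ (Bt_satisfies hS h)⟩

theorem Ht_not_mem_VS (H : Subgroup (BG t)) (hX : (⟨0, 1⟩ : BG t) ∈ H)
    (hY : (⟨1, 0⟩ : BG t) ∈ H) {S : Set ℝ} (hS : Sep S t) : Ht H ∉ VS S := by
  rintro ⟨-, h1⟩
  obtain ⟨p, q, p', q', h2, h3, h4⟩ := hS.exists_adm
  have h5 := (sat_eps_iff_of_total (Ht_total H) p q p' q').mp (h1 p q p' q' h2)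
  have h6 : (1 : BG t) < ⟨0, 1⟩ := by
    rw [← not_le, BG.le_iff]
    simp
  have e1 : ∀ n : ℕ, ((⟨0, 1⟩ : BG t)) ^ n = ⟨0, n⟩ := by
    intro n
    ext
    · rw [BG.pow_i]; simp
    · rw [BG.pow_zero_a _ rfl]; simp
  have e2 : (⟨1, 0⟩ : BG t)⁻¹ * ⟨0, 1⟩ * ⟨1, 0⟩ = ⟨0, t⟩ := by
    ext
    · rw [BG.conj_i]
    · rw [BG.conj_a _ _ rfl]; simp
  have e3 : ∀ n : ℕ, ((⟨0, t⟩ : BG t)) ^ n = ⟨0, n * t⟩ := by
    intro n
    ext
    · rw [BG.pow_i]; simp
    · rw [BG.pow_zero_a _ rfl]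
  refine h5 (⟨⟨0, 1⟩, hX⟩ : H) (⟨⟨1, 0⟩, hY⟩ : H) h6 ⟨?_, ?_⟩
  · change ((⟨0, 1⟩ : BG t)) ^ p < ((⟨1, 0⟩ : BG t)⁻¹ * ⟨0, 1⟩ * ⟨1, 0⟩) ^ q
    rw [← not_le, BG.le_iff, e1, e2, e3]
    simp only [lt_irrefl, true_and, false_or, not_le]
    exact h3
  · change ((⟨1, 0⟩ : BG t)⁻¹ * ⟨0, 1⟩ * ⟨1, 0⟩) ^ q' < ((⟨0, 1⟩ : BG t)) ^ p'
    rw [← not_le, BG.le_iff, e1, e2, e3]
    simp only [lt_irrefl, true_and, false_or, not_le]
    exact h4

end Compute

/-- The powers of `r`. -/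
def pw (r : ℝ) : Set ℝ := {σ | ∃ j : ℤ, σ = r ^ j}

theorem pw_inv (r : ℝ) : pw r⁻¹ = pw r := by
  ext σ
  constructor
  · rintro ⟨j, rfl⟩
    exact ⟨-j, by simp⟩
  · rintro ⟨j, rfl⟩
    exact ⟨-j, by simp⟩

theorem sep_pw_of_one_lt {r s : ℝ} (hr : 1 < r) (hs : 0 < s) (h : s ∉ pw r) : Sep (pw r) s := by
  obtain ⟨n, h1, h2⟩ := exists_mem_Ico_zpow hs hr
  have h3 : r ^ n ≠ s := fun h3 => h ⟨n, h3.symm⟩
  have h4 : r ^ n < s := lt_of_le_of_ne h1 h3
  have h5 : 0 < r ^ n := zpow_pos (by linarith) _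
  refine ⟨(r ^ n + s) / 2, (s + r ^ (n + 1)) / 2, by linarith, by linarith, by linarith, ?_⟩
  rintro σ ⟨j, rfl⟩ ⟨h6, h7⟩
  rcases le_or_gt j n with h8 | h8
  · have := zpow_le_zpow_right₀ hr.le h8
    linarith
  · have := zpow_le_zpow_right₀ hr.le (show n + 1 ≤ j by omega)
    linarith

theorem sep_pw {r s : ℝ} (hr : 0 < r) (hs : 0 < s) (h : s ∉ pw r) : Sep (pw r) s := by
  rcases lt_trichotomy r 1 with h1 | h1 | h1
  · rw [← pw_inv] at h ⊢
    exact sep_pw_of_one_lt ((one_lt_inv₀ hr).mpr h1) hs h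
  · subst h1
    have h2 : s ≠ 1 := fun h2 => h ⟨0, by simpa using h2⟩
    rcases lt_or_gt_of_ne h2 with h3 | h3
    · refine ⟨s / 2, (s + 1) / 2, by linarith, by linarith, by linarith, ?_⟩
      rintro σ ⟨j, rfl⟩ ⟨h4, h5⟩
      rw [one_zpow] at h4 h5
      linarith
    · refine ⟨(1 + s) / 2, s + 1, by linarith, by linarith, by linarith, ?_⟩
      rintro σ ⟨j, rfl⟩ ⟨h4, h5⟩
      rw [one_zpow] at h4 h5
      linarith
  · exact sep_pw_of_one_lt h1 hs h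

theorem exists_power {r s : ℝ} (hr : 0 < r) (hs : 0 < s) (h : s ∉ pw r) :
    ∃ k : ℕ, (k = 2 ∨ k = 3) ∧ s ^ k ∉ pw r := by
  by_contra hcon
  push Not at hcon
  obtain ⟨i, hi⟩ := hcon 2 (Or.inl rfl)
  obtain ⟨j, hj⟩ := hcon 3 (Or.inr rfl)
  apply h
  refine ⟨j - i, ?_⟩
  rw [zpow_sub₀ hr.ne', ← hi, ← hj]
  field_simp

theorem noCover_VS {r : ℝ} (hr : 1 < r) : VS (pw r) ∈ NoCover := by
  refine ⟨isVariety_VS _, VS_subset_Rep _, ?_⟩
  rintro ⟨W, hW, hWR, hVW, hno⟩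
  have hr0 : 0 < r := by linarith
  have h1mem : (1 : ℝ) ∈ pw r := ⟨0, by simp⟩
  have hinv : ∀ s ∈ pw r, s⁻¹ ∈ pw r := by
    rintro s ⟨j, rfl⟩
    exact ⟨-j, by simp⟩
  obtain ⟨T, hT, hTW, p, q, p', q', x, y, hadm, hx, h1, h2⟩ :=
    exists_total_of_not_mem_VS hW hWR (S := pw r) hVW.2
  obtain ⟨A, i1, i2, i3, i4, hA⟩ := exists_eq_of hT
  subst hA
  obtain ⟨y', s, hsc, hs⟩ := @exists_scal A i1 i2 i3 i4 p q p' q' hadm.1 hadm.2.2.2.1 x y hx h1 h2
    (pw r) h1mem hinv hadm.2.2.2.2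
  have hs1 : (s : ℝ) ≠ 1 := fun h => hs (h ▸ h1mem)
  obtain ⟨k, hk, hks⟩ := exists_power hr0 s.2 hs
  have hk0 : 0 < k := by omega
  have hsc' := hsc.pow hk0
  have hH : Ht (img hsc') ∈ W := hW.mem_of_satisfies hTW (img_satisfies hsc')
  apply hno
  refine ⟨W ∩ VS (pw r ∪ pw ((s : ℝ) ^ k)), hW.inter (isVariety_VS _), ⟨?_, ?_⟩, ⟨?_, ?_⟩⟩
  · intro G hG
    exact ⟨hVW.1 hG, VS_mono Set.subset_union_left hG⟩
  · intro hsub
    have h3 : Ht (img hsc') ∈ W ∩ VS (pw r ∪ pw ((s : ℝ) ^ k)) :=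
      ⟨hH, Ht_mem_VS _ fun j => Or.inr ⟨j, rfl⟩⟩
    refine Ht_not_mem_VS (img hsc') (mem_img_x hsc') (mem_img_Y hsc') ?_ (hsub h3)
    exact sep_pw hr0 (pow_pos s.2 k) hks
  · exact Set.inter_subset_left
  · intro hsub
    refine hsc.not_mem ?_ (hsub hTW).2
    refine (sep_pw hr0 s.2 hs).union (sep_pw (pow_pos s.2 k) s.2 ?_)
    rintro ⟨j, hj⟩
    rw [← zpow_natCast, ← zpow_mul] at hj
    have h4 : (s : ℝ) ^ (1 : ℤ) = (s : ℝ) ^ ((k : ℤ) * j) := by rw [zpow_one]; exact hj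
    have h5 := zpow_right_injective₀ s.2 hs1 h4
    rcases hk with rfl | rfl <;> push_cast at h5 <;> omega

theorem VS_injective {r r' : ℝ} (hr : 1 < r) (hr' : 1 < r') (h : VS (pw r) = VS (pw r')) :
    r = r' := by
  have key : ∀ r r' : ℝ, 1 < r → 1 < r' → VS (pw r) = VS (pw r') → r ∈ pw r' := by
    intro r r' hr hr' h
    have hr0 : 0 < r := by linarith
    have hr0' : 0 < r' := by linarith
    by_contra hcon
    have h1 : Ht (⊤ : Subgroup (BG ⟨r, hr0⟩)) ∈ VS (pw r) := Ht_mem_VS _ fun j => ⟨j, rfl⟩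
    rw [h] at h1
    exact Ht_not_mem_VS _ (Subgroup.mem_top _) (Subgroup.mem_top _)
      (sep_pw hr0' hr0 hcon) h1
  obtain ⟨j, hj⟩ := key r r' hr hr' h
  obtain ⟨i, hi⟩ := key r' r hr' hr h.symm
  have hr0 : 0 < r := by linarith
  have hr0' : 0 < r' := by linarith
  have h1 : r ^ (1 : ℤ) = r ^ (i * j) := by rw [zpow_one, zpow_mul, ← hi, ← hj]
  have h2 := zpow_right_injective₀ hr0 hr.ne' h1
  have h3 : 0 < j := by
    by_contra hcon
    push Not at hcon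
    have := zpow_le_zpow_right₀ hr'.le hcon
    rw [← hj, zpow_zero] at this
    linarith
  have h4 : j = 1 := by
    rcases Int.eq_one_or_neg_one_of_mul_eq_one' h2.symm with h5 | h5
    · exact h5.2
    · omega
  rw [hj, h4, zpow_one]

instance : Countable (LTerm × LTerm) := inferInstance

open Cardinal in
theorem card_noCover : #NoCover = 𝔠 := by
  apply le_antisymm
  · have hinj : Function.Injective
        (fun V : NoCover => ({e | ∀ G ∈ V.1, G.Satisfies e} : Set (LTerm × LTerm))) := by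
      have key : ∀ V : NoCover, V.1 = Mod {e | ∀ G ∈ V.1, G.Satisfies e} := by
        rintro ⟨V, ⟨E, rfl⟩, h2, h3⟩
        ext G
        constructor
        · intro hG e he
          exact he G hG
        · intro hG e he
          exact hG e (fun G' hG' => hG' e he)
      intro V V' h
      apply Subtype.ext
      rw [key V, key V']
      exact congrArg Mod h
    have h1 := Cardinal.lift_mk_le_lift_mk_of_injective hinj
    have h2 : #(Set (LTerm × LTerm)) ≤ 𝔠 := by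
      rw [Cardinal.mk_set, ← Cardinal.two_power_aleph0]
      exact Cardinal.power_le_power_left two_ne_zero (Cardinal.mk_le_aleph0)
    have h3 := Cardinal.lift_le.{1}.mpr h2
    rw [Cardinal.lift_continuum] at h3
    refine le_trans ?_ h3
    simpa using h1
  · have hinj : Function.Injective
        (fun r : Set.Ioi (1 : ℝ) => (⟨VS (pw r), noCover_VS r.2⟩ : NoCover)) := by
      intro r r' h
      apply Subtype.ext
      exact VS_injective r.2 r'.2 (congrArg Subtype.val h)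
    have h1 := Cardinal.lift_mk_le_lift_mk_of_injective hinj
    rw [Cardinal.mk_Ioi_real, Cardinal.lift_continuum] at h1
    simpa using h1

end Pool.Agent.Lib.MP_deb411_al
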