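import Pool.Agent.Lib.MP_deb411_al.RepEq

namespace Pool.Agent.Lib.MP_deb411_al

section Quot

variable {G : Type} [Group G] [Lattice G] [MulLeftMono G] [MulRightMono G]

/-- The subgroup of an l-ideal. -/
def IsLI.toSubgroup {M : Set G} (h : IsLI M) : Subgroup G where
  carrier := M
  mul_mem' := fun ha hb => h.mul _ ha _ hb
  one_mem' := h.one
  inv_mem' := fun ha => h.inv _ ha

theorem IsLI.mem_toSubgroup {M : Set G} (h : IsLI M) (a : G) : a ∈ h.toSubgroup ↔ a ∈ M :=
  Iff.rfl

theorem IsLI.normal {M : Set G} (h : IsLI M) : h.toSubgroup.Normal :=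
  ⟨fun a ha y => by
    rw [h.mem_toSubgroup] at *
    simpa using h.conj a ha y⁻¹⟩

theorem IsLI.cone_mul {M : Set G} (h : IsLI M) {c d : G} (hc : c ⊔ 1 ∈ M) (hd : d ⊔ 1 ∈ M) :
    c * d ⊔ 1 ∈ M :=
  h.conv _ (h.mul _ hc _ hd) _ le_sup_right
    (sup_le (mul_le_mul' le_sup_left le_sup_left) (one_le_mul le_sup_right le_sup_right))

theorem IsLI.cone_conj {M : Set G} (h : IsLI M) {c : G} (hc : c ⊔ 1 ∈ M) (y : G) :
    y⁻¹ * c * y ⊔ 1 ∈ M := by
  have := h.conj _ hc y
  rw [mul_sup, sup_mul] at this
  simpa using this

/-- The order on the quotient. -/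
def qle {M : Set G} (h : IsLI M) (x y : G ⧸ h.toSubgroup) : Prop :=
  ∃ a b : G, (a : G ⧸ h.toSubgroup) = x ∧ (b : G ⧸ h.toSubgroup) = y ∧ b⁻¹ * a ⊔ 1 ∈ M

theorem qle_mk {M : Set G} (h : IsLI M) (a b : G) :
    qle h (a : G ⧸ h.toSubgroup) (b : G ⧸ h.toSubgroup) ↔ b⁻¹ * a ⊔ 1 ∈ M := by
  constructor
  · rintro ⟨a', b', ha, hb, hab⟩
    rw [QuotientGroup.eq, h.mem_toSubgroup] at ha hb
    have h1 := h.cone_mul (h.sup _ (h.inv _ hb)) (h.cone_mul hab (h.sup _ ha))
    convert h1 using 2
    group
  · intro hab
    exact ⟨a, b, rfl, rfl, hab⟩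

/-- The linear order on the quotient by a prime l-ideal. -/
@[implicit_reducible] noncomputable def qord {M : Set G} (h : IsLI M) (hp : ∀ c : G, c ⊔ 1 ∈ M ∨ c⁻¹ ⊔ 1 ∈ M) :
    LinearOrder (G ⧸ h.toSubgroup) where
  le := qle h
  le_refl := by
    intro x
    induction x using QuotientGroup.induction_on with
    | H a => rw [qle_mk]; simpa using h.one
  le_trans := by
    intro x y z hxy hyz
    induction x using QuotientGroup.induction_on with
    | H a =>
      induction y using QuotientGroup.induction_on with
      | H b =>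
        induction z using QuotientGroup.induction_on with
        | H c =>
          rw [qle_mk] at *
          have := h.cone_mul hyz hxy
          convert this using 2
          group
  le_antisymm := by
    intro x y hxy hyx
    induction x using QuotientGroup.induction_on with
    | H a =>
      induction y using QuotientGroup.induction_on with
      | H b =>
        rw [qle_mk] at *
        rw [QuotientGroup.eq, h.mem_toSubgroup]
        apply h.mem_of_parts hyx
        simpa using hxy
  le_total := by
    intro x y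
    induction x using QuotientGroup.induction_on with
    | H a =>
      induction y using QuotientGroup.induction_on with
      | H b =>
        rw [qle_mk, qle_mk]
        rcases hp (b⁻¹ * a) with h1 | h1
        · exact Or.inl h1
        · right
          simpa using h1
  toDecidableLE := Classical.decRel _

/-- The totally ordered quotient by a prime l-ideal. -/
noncomputable def qgrp {M : Set G} (h : IsLI M)
    (hp : ∀ c : G, c ⊔ 1 ∈ M ∨ c⁻¹ ⊔ 1 ∈ M) : LGroup :=
  letI : h.toSubgroup.Normal := h.normal
  letI : LinearOrder (G ⧸ h.toSubgroup) := qord h hp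
  { carrier := G ⧸ h.toSubgroup
    grp := inferInstance
    lat := inferInstance
    mono := by
      intro a b x y hxy
      induction x using QuotientGroup.induction_on with
      | H x =>
        induction y using QuotientGroup.induction_on with
        | H y =>
          induction a using QuotientGroup.induction_on with
          | H a =>
            induction b using QuotientGroup.induction_on with
            | H b =>
              rw [← QuotientGroup.mk_mul, ← QuotientGroup.mk_mul, ← QuotientGroup.mk_mul,
                ← QuotientGroup.mk_mul]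
              change qle h _ _ at hxy
              change qle h _ _
              rw [qle_mk] at *
              have := h.cone_conj hxy b
              convert this using 2
              group }

theorem exists_total_quot {A : LGroup} {M : Set A.carrier} (h : IsLI M)
    (hp : ∀ c : A.carrier, c ⊔ 1 ∈ M ∨ c⁻¹ ⊔ 1 ∈ M) :
    ∃ (T : LGroup) (f : A.carrier → T.carrier), T.IsTotal ∧ IsLHom A T f ∧
      Function.Surjective f ∧ ∀ a, f a = 1 → a ∈ M := by
  letI hn : h.toSubgroup.Normal := h.normal
  letI ho : LinearOrder (A.carrier ⧸ h.toSubgroup) := qord h hp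
  refine ⟨qgrp h hp, fun a => (a : A.carrier ⧸ h.toSubgroup), ?_, ⟨?_, ?_, ?_⟩, ?_, ?_⟩
  · intro a b
    exact ho.le_total a b
  · intro a b
    rfl
  · intro a b
    change ((a ⊓ b : A.carrier) : A.carrier ⧸ h.toSubgroup) =
      (a : A.carrier ⧸ h.toSubgroup) ⊓ (b : A.carrier ⧸ h.toSubgroup)
    rcases ho.le_total (a : A.carrier ⧸ h.toSubgroup) (b : A.carrier ⧸ h.toSubgroup) with h1 | h1
    · rw [inf_eq_left.mpr h1, eq_comm, QuotientGroup.eq, h.mem_toSubgroup]
      replace h1 := (qle_mk h a b).mp h1
      have := h.inv _ h1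
      rw [inv_sup] at this
      rw [mul_inf, inv_mul_cancel, inf_comm]
      simpa using this
    · rw [inf_eq_right.mpr h1, eq_comm, QuotientGroup.eq, h.mem_toSubgroup]
      replace h1 := (qle_mk h b a).mp h1
      have := h.inv _ h1
      rw [inv_sup] at this
      rw [mul_inf, inv_mul_cancel]
      simpa using this
  · intro a b
    change ((a ⊔ b : A.carrier) : A.carrier ⧸ h.toSubgroup) =
      (a : A.carrier ⧸ h.toSubgroup) ⊔ (b : A.carrier ⧸ h.toSubgroup)
    rcases ho.le_total (a : A.carrier ⧸ h.toSubgroup) (b : A.carrier ⧸ h.toSubgroup) with h1 | h1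
    · rw [sup_eq_right.mpr h1, eq_comm, QuotientGroup.eq, h.mem_toSubgroup]
      replace h1 := (qle_mk h a b).mp h1
      rw [mul_sup, inv_mul_cancel]
      exact h1
    · rw [sup_eq_left.mpr h1, eq_comm, QuotientGroup.eq, h.mem_toSubgroup]
      replace h1 := (qle_mk h b a).mp h1
      rw [mul_sup, inv_mul_cancel, sup_comm]
      exact h1
  · exact QuotientGroup.mk_surjective
  · intro a ha
    have : (a : A.carrier ⧸ h.toSubgroup) = ((1 : A.carrier) : A.carrier ⧸ h.toSubgroup) := ha
    rw [QuotientGroup.eq, h.mem_toSubgroup, mul_one] at this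
    simpa using h.inv _ this

end Quot

/-- The identity of representability. -/
def rho : LTerm × LTerm :=
  (.inf (.sup (.var 0) .one)
    (.mul (.mul (.inv (.var 1)) (.sup (.inv (.var 0)) .one)) (.var 1)), .one)

theorem sat_rho_iff (G : LGroup) : G.Satisfies rho ↔
    ∀ x y : G.carrier, (x ⊔ 1) ⊓ (y⁻¹ * (x⁻¹ ⊔ 1) * y) = 1 := by
  constructor
  · intro h x y
    exact h (fun n => if n = 0 then x else y)
  · intro h v
    exact h (v 0) (v 1)

theorem sat_rho_of_total {G : LGroup} (h : G.IsTotal) : G.Satisfies rho := by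
  rw [sat_rho_iff]
  intro x y
  rcases h x 1 with h1 | h1
  · rw [sup_eq_right.mpr h1]
    exact inf_eq_left.mpr (one_le_conj y le_sup_right)
  · rw [sup_eq_right.mpr (inv_le_one'.mpr h1)]
    simp

/-- The representable l-groups form a variety, defined by one identity. -/
theorem rep_eq : Rep = Mod {rho} := by
  ext G
  constructor
  · intro hG e he
    rw [Set.mem_singleton_iff] at he
    subst he
    by_contra hcon
    obtain ⟨T, hT, hT', -⟩ := exists_total_of_not_satisfies hG hcon
    exact hT' (sat_rho_of_total hT)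
  · intro hG
    have hrho : G.Satisfies rho := hG rho rfl
    rw [sat_rho_iff] at hrho
    have key : ∀ g : G.carrier, g ≠ 1 → ∃ (T : LGroup) (f : G.carrier → T.carrier),
        T.IsTotal ∧ IsLHom G T f ∧ Function.Surjective f ∧ f g ≠ 1 := by
      intro g hg
      obtain ⟨M, hM, hgM, hmax⟩ := exists_maximal hg (isLI_one)
      obtain ⟨T, f, h1, h2, h3, h4⟩ :=
        exists_total_quot hM (prime_of_maximal hM hgM hmax hrho)
      exact ⟨T, f, h1, h2, h3, fun h5 => hgM (h4 g h5)⟩
    choose T f hT using key
    refine ⟨{g : G.carrier // g ≠ 1}, fun g => T g g.2, fun g => f g g.2, fun g => (hT g g.2).1,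
      fun g => (hT g g.2).2.1, fun g => (hT g g.2).2.2.1, ?_⟩
    intro a b hab
    by_contra hne
    have hne' : a * b⁻¹ ≠ 1 := fun h => hne (mul_inv_eq_one.mp h)
    obtain ⟨h1, h2, h3, h4⟩ := hT _ hne'
    apply h4
    have h5 := hab ⟨_, hne'⟩
    change f _ hne' a = f _ hne' b at h5
    rw [h2.map_mul, h2.map_inv, h5, mul_inv_cancel]

theorem isVariety_rep : IsVariety Rep := ⟨{rho}, rep_eq⟩

end Pool.Agent.Lib.MP_deb411_al
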