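import Pool.Agent.Lib.MP_deb411_al.Eps

namespace Pool.Agent.Lib.MP_deb411_al

theorem exists_eq_of {T : LGroup} (hT : T.IsTotal) :
    ∃ (A : Type) (_ : Group A) (_ : LinearOrder A) (_ : MulLeftMono A) (_ : MulRightMono A),
      T = LGroup.of A :=
  ⟨T.carrier, T.grp, T.lin hT, instMLM T, instMRM T, rfl⟩

section Rel

variable {A : Type} [Group A] [LinearOrder A] [MulLeftMono A] [MulRightMono A]

/-- `Y` lies above the convex subgroup of `x`, normalises it, and scales by `t`. -/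
structure Scal (x Y : A) (t : Set.Ioi (0 : ℝ)) : Prop where
  hx : 1 < x
  hY : 1 < Y
  hYC : Y ∉ Cx x
  conj : ∀ z ∈ Cx x, Y⁻¹ * z * Y ∈ Cx x
  conj' : ∀ z ∈ Cx x, Y * z * Y⁻¹ ∈ Cx x
  scal : phi x (Y⁻¹ * x * Y) = t

variable {x Y : A} {t : Set.Ioi (0 : ℝ)}

theorem Scal.zconj (h : Scal x Y t) (i : ℤ) : ∀ z ∈ Cx x,
    Y ^ (-i) * z * Y ^ i ∈ Cx x ∧ phi x (Y ^ (-i) * z * Y ^ i) = (t : ℝ) ^ i * phi x z := by
  induction i using Int.induction_on with
  | zero => intro z hz; simpa using hz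
  | succ n ih =>
    intro z hz
    obtain ⟨h1, h2⟩ := ih z hz
    have e : Y ^ (-((n : ℤ) + 1)) * z * Y ^ ((n : ℤ) + 1) =
        Y⁻¹ * (Y ^ (-(n : ℤ)) * z * Y ^ (n : ℤ)) * Y := by group
    rw [e]
    refine ⟨h.conj _ h1, ?_⟩
    rw [phi_conj h.hx h.conj h1, h2, h.scal, zpow_add_one₀ (BG.tne t)]
    ring
  | pred n ih =>
    intro z hz
    obtain ⟨h1, h2⟩ := ih z hz
    have e : Y ^ (-(-(n : ℤ) - 1)) * z * Y ^ (-(n : ℤ) - 1) =
        Y * (Y ^ (- -(n : ℤ)) * z * Y ^ (-(n : ℤ))) * Y⁻¹ := by group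
    rw [e]
    have h3 := h.conj' _ h1
    refine ⟨h3, ?_⟩
    have h4 := phi_conj h.hx h.conj h3
    have e2 : Y⁻¹ * (Y * (Y ^ (- -(n : ℤ)) * z * Y ^ (-(n : ℤ))) * Y⁻¹) * Y =
      Y ^ (- -(n : ℤ)) * z * Y ^ (-(n : ℤ)) := by group
    rw [e2, h2, h.scal] at h4
    rw [zpow_sub_one₀ (BG.tne t)]
    have h5 := BG.tne t
    field_simp
    linarith

theorem Scal.zpow_mem (h : Scal x Y t) {i : ℤ} (hi : 0 < i) : Y ^ i ∉ Cx x := by
  intro hmem
  apply h.hYC
  refine Cx_convex (Cx x).one_mem hmem h.hY.le ?_ h.hx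
  have := (zpow_le_iff h.hY (m := 1) (n := i)).mpr (by omega)
  simpa using this

theorem Scal.pow (h : Scal x Y t) {k : ℕ} (hk : 0 < k) :
    Scal x (Y ^ k) ⟨(t : ℝ) ^ k, Set.mem_Ioi.mpr (pow_pos (BG.tpos t) k)⟩ := by
  have e1 : ∀ z : A, (Y ^ k)⁻¹ * z * Y ^ k = Y ^ (-(k : ℤ)) * z * Y ^ (k : ℤ) := by
    intro z
    simp
  have e2 : ∀ z : A, Y ^ k * z * (Y ^ k)⁻¹ = Y ^ (-(-(k : ℤ))) * z * Y ^ (-(k : ℤ)) := by
    intro z
    simp
  refine ⟨h.hx, ?_, ?_, ?_, ?_, ?_⟩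
  · exact one_lt_pow' h.hY hk.ne'
  · have := h.zpow_mem (i := (k : ℤ)) (by exact_mod_cast hk)
    simpa using this
  · intro z hz
    rw [e1]
    exact (h.zconj _ z hz).1
  · intro z hz
    rw [e2]
    exact (h.zconj _ z hz).1
  · rw [e1, (h.zconj _ x (self_mem_Cx h.hx)).2, phi_self h.hx]
    simp

/-- The relation between `A` and `BG t`. -/
def Rl (x Y : A) (t : Set.Ioi (0 : ℝ)) (g : A) (b : BG t) : Prop :=
  g * Y ^ (-b.i) ∈ Cx x ∧ phi x (g * Y ^ (-b.i)) = b.a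

theorem Rl_one (h : Scal x Y t) : Rl x Y t 1 1 := by
  refine ⟨by simpa using (Cx x).one_mem, by simpa using phi_one h.hx⟩

theorem Rl_mul (h : Scal x Y t) {g g' : A} {b b' : BG t} (h1 : Rl x Y t g b)
    (h2 : Rl x Y t g' b') : Rl x Y t (g * g') (b * b') := by
  have e : g * g' * Y ^ (-(b * b').i) =
      (g * Y ^ (-b.i)) * (Y ^ (-(-b.i)) * (g' * Y ^ (-b'.i)) * Y ^ (-b.i)) := by
    rw [BG.mul_i]
    group
  have h3 := h.zconj (-b.i) _ h2.1
  unfold Rl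
  rw [e]
  refine ⟨(Cx x).mul_mem h1.1 h3.1, ?_⟩
  rw [phi_mul h.hx h1.1 h3.1, h3.2, h1.2, h2.2]
  rfl

theorem Rl_inv (h : Scal x Y t) {g : A} {b : BG t} (h1 : Rl x Y t g b) :
    Rl x Y t g⁻¹ b⁻¹ := by
  have e : g⁻¹ * Y ^ (-(b⁻¹).i) = Y ^ (-b.i) * (g * Y ^ (-b.i))⁻¹ * Y ^ b.i := by
    rw [BG.inv_i]
    group
  have h3 := h.zconj b.i _ ((Cx x).inv_mem h1.1)
  unfold Rl
  rw [e]
  refine ⟨h3.1, ?_⟩
  rw [h3.2, phi_inv h.hx h1.1, h1.2, BG.inv_a]
  ring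

theorem Rl_le (h : Scal x Y t) {g g' : A} {b b' : BG t} (h1 : Rl x Y t g b)
    (h2 : Rl x Y t g' b') (hg : g ≤ g') : b ≤ b' := by
  rw [BG.le_iff]
  rcases lt_trichotomy b.i b'.i with h3 | h3 | h3
  · exact Or.inl h3
  · right
    refine ⟨h3, ?_⟩
    rw [← h1.2, ← h2.2]
    apply phi_mono h.hx h1.1 h2.1
    rw [h3]
    exact mul_le_mul_left hg _
  · exfalso
    apply h.zpow_mem (i := b.i - b'.i) (by omega)
    have h4 : (g * Y ^ (-b.i))⁻¹ * (g' * Y ^ (-b'.i)) ∈ Cx x :=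
      (Cx x).mul_mem ((Cx x).inv_mem h1.1) h2.1
    refine Cx_convex (Cx x).one_mem h4 ?_ ?_ h.hx
    · have := (zpow_le_iff h.hY (m := 0) (n := b.i - b'.i)).mpr (by omega)
      simpa using this
    · have e : (g * Y ^ (-b.i))⁻¹ * (g' * Y ^ (-b'.i)) = Y ^ b.i * (g⁻¹ * g') * Y ^ (-b'.i) := by
        group
      have e' : Y ^ (b.i - b'.i) = Y ^ b.i * 1 * Y ^ (-b'.i) := by
        group
      rw [e, e']
      apply mul_le_mul_left
      apply mul_le_mul_right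
      rw [← inv_mul_cancel g]
      exact mul_le_mul_right hg _

theorem Rl_fun (h : Scal x Y t) {g : A} {b b' : BG t} (h1 : Rl x Y t g b)
    (h2 : Rl x Y t g b') : b = b' :=
  le_antisymm (Rl_le h h1 h2 le_rfl) (Rl_le h h2 h1 le_rfl)

/-- The image in `BG t`. -/
def img (h : Scal x Y t) : Subgroup (BG t) where
  carrier := {b | ∃ g : A, Rl x Y t g b}
  one_mem' := ⟨1, Rl_one h⟩
  mul_mem' := by
    rintro a b ⟨g, hg⟩ ⟨g', hg'⟩
    exact ⟨g * g', Rl_mul h hg hg'⟩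
  inv_mem' := by
    rintro a ⟨g, hg⟩
    exact ⟨g⁻¹, Rl_inv h hg⟩

theorem img_satisfies (h : Scal x Y t) (e : LTerm × LTerm) (he : (LGroup.of A).Satisfies e) :
    (Ht (img h)).Satisfies e := by
  have hc : Compat (LGroup.of A) (Ht (img h)) (fun (g : A) (b : img h) => Rl x Y t g b) := by
    refine ⟨Rl_one h, fun a b c d => Rl_mul h, fun a b => Rl_inv h, ?_, ?_⟩
    · intro a b c d hab hcd
      rcases le_total (α := A) a c with h1 | h1
      · have h2 : b ≤ d := Rl_le h hab hcd h1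
        have e1 : a ⊓ c = a := inf_eq_left.mpr h1
        have e2 : b ⊓ d = b := inf_eq_left.mpr h2
        rw [e1, e2]
        exact hab
      · have h2 : d ≤ b := Rl_le h hcd hab h1
        have e1 : a ⊓ c = c := inf_eq_right.mpr h1
        have e2 : b ⊓ d = d := inf_eq_right.mpr h2
        rw [e1, e2]
        exact hcd
    · intro a b c d hab hcd
      rcases le_total (α := A) a c with h1 | h1
      · have h2 : b ≤ d := Rl_le h hab hcd h1
        have e1 : a ⊔ c = c := sup_eq_right.mpr h1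
        have e2 : b ⊔ d = d := sup_eq_right.mpr h2
        rw [e1, e2]
        exact hcd
      · have h2 : d ≤ b := Rl_le h hcd hab h1
        have e1 : a ⊔ c = a := sup_eq_left.mpr h1
        have e2 : b ⊔ d = b := sup_eq_left.mpr h2
        rw [e1, e2]
        exact hab
  exact hc.satisfies (fun b => b.2) (fun a b b' h1 h2 => Subtype.ext (Rl_fun h h1 h2)) e he

theorem mem_img_x (h : Scal x Y t) : (⟨0, 1⟩ : BG t) ∈ img h :=
  ⟨x, by simpa using self_mem_Cx h.hx, by simpa using phi_self h.hx⟩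

theorem mem_img_Y (h : Scal x Y t) : (⟨1, 0⟩ : BG t) ∈ img h :=
  ⟨Y, by simpa using (Cx x).one_mem, by simpa using phi_one h.hx⟩

/-- A violating pair gives a scaling outside `S`. -/
theorem exists_scal {p q p' q' : ℕ} (hp : 0 < p) (hq' : 0 < q')
    {x y : A} (hx : 1 < x) (h1 : x ^ p < (y⁻¹ * x * y) ^ q) (h2 : (y⁻¹ * x * y) ^ q' < x ^ p')
    {S : Set ℝ} (hS1 : (1 : ℝ) ∈ S) (hSinv : ∀ s ∈ S, s⁻¹ ∈ S)
    (hS : ∀ σ ∈ S, ¬ ((p : ℝ) ≤ q * σ ∧ q' * σ ≤ (p' : ℝ))) :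
    ∃ (y' : A) (s : Set.Ioi (0 : ℝ)), Scal x y' s ∧ (s : ℝ) ∉ S := by
  have hc1 : 1 < y⁻¹ * x * y := by
    have : y⁻¹ * 1 * y < y⁻¹ * x * y := mul_lt_mul_left (mul_lt_mul_right hx _) _
    simpa using this
  have hxy : y⁻¹ * x * y ∈ Cx x := by
    refine Cx_convex (Cx x).one_mem ((Cx x).pow_mem (self_mem_Cx hx) p') hc1.le ?_ hx
    exact (le_self_pow hc1.le hq'.ne').trans h2.le
  have hc2 : 1 < y * x * y⁻¹ := by
    have : y * 1 * y⁻¹ < y * x * y⁻¹ := mul_lt_mul_left (mul_lt_mul_right hx _) _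
    simpa using this
  have hxy' : y * x * y⁻¹ ∈ Cx x := by
    refine Cx_convex (Cx x).one_mem ((Cx x).pow_mem (self_mem_Cx hx) q) hc2.le ?_ hx
    have h3 : x ≤ (y⁻¹ * x * y) ^ q := (le_self_pow hx.le hp.ne').trans h1.le
    have h4 : y * x * y⁻¹ ≤ y * (y⁻¹ * x * y) ^ q * y⁻¹ :=
      mul_le_mul_left (mul_le_mul_right h3 _) _
    have e : y * (y⁻¹ * x * y) ^ q * y⁻¹ = x ^ q := by
      rw [← conj_pow]
      congr 1
      group
    rwa [e] at h4
  have hconj : ∀ w : A, w⁻¹ * x * w ∈ Cx x → ∀ z ∈ Cx x, w⁻¹ * z * w ∈ Cx x := by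
    intro w hw z hz
    obtain ⟨n, h3, h4⟩ := hz
    have e1 : ∀ m : ℕ, w⁻¹ * x ^ m * w = (w⁻¹ * x * w) ^ m := by
      intro m
      have := (conj_pow (a := w⁻¹) (b := x) (i := m))
      simpa using this.symm
    refine Cx_convex ((Cx x).inv_mem ((Cx x).pow_mem hw n)) ((Cx x).pow_mem hw n) ?_ ?_ hx
    · rw [← e1]
      have e2 : (w⁻¹ * x ^ n * w)⁻¹ = w⁻¹ * (x ^ n)⁻¹ * w := by group
      rw [e2]
      exact mul_le_mul_left (mul_le_mul_right h3 _) _
    · rw [← e1]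
      exact mul_le_mul_left (mul_le_mul_right h4 _) _
  have hcy := hconj y hxy
  have hcy' : ∀ z ∈ Cx x, y * z * y⁻¹ ∈ Cx x := by
    have := hconj y⁻¹ (by simpa using hxy')
    simpa using this
  have hspos : 0 < phi x (y⁻¹ * x * y) := by
    have h3 := phi_conj hx hcy hxy'
    have e : y⁻¹ * (y * x * y⁻¹) * y = x := by group
    rw [e, phi_self hx] at h3
    have h4 := phi_nonneg hx hxy hc1.le
    rcases h4.lt_or_eq with h5 | h5
    · exact h5
    · rw [← h5] at h3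
      simp at h3
  have hsS : phi x (y⁻¹ * x * y) ∉ S := by
    intro hmem
    apply hS _ hmem
    constructor
    · have h3 := phi_mono hx ((Cx x).pow_mem (self_mem_Cx hx) p) ((Cx x).pow_mem hxy q) h1.le
      rw [phi_pow hx (self_mem_Cx hx), phi_pow hx hxy, phi_self hx, mul_one] at h3
      exact h3
    · have h3 := phi_mono hx ((Cx x).pow_mem hxy q') ((Cx x).pow_mem (self_mem_Cx hx) p') h2.le
      rw [phi_pow hx (self_mem_Cx hx), phi_pow hx hxy, phi_self hx, mul_one] at h3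
      exact h3
  have hyC : y ∉ Cx x := by
    intro hmem
    apply hsS
    rw [phi_mul hx ((Cx x).mul_mem ((Cx x).inv_mem hmem) (self_mem_Cx hx)) hmem,
      phi_mul hx ((Cx x).inv_mem hmem) (self_mem_Cx hx), phi_inv hx hmem, phi_self hx]
    convert hS1 using 1
    ring
  rcases le_total 1 y with hy | hy
  · have hy1 : 1 < y := lt_of_le_of_ne hy (by
      rintro rfl
      exact hyC (Cx x).one_mem)
    exact ⟨y, ⟨_, hspos⟩, ⟨hx, hy1, hyC, hcy, hcy', rfl⟩, hsS⟩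
  · have hy1 : 1 < y⁻¹ := by
      rw [one_lt_inv']
      refine lt_of_le_of_ne hy ?_
      rintro rfl
      exact hyC (Cx x).one_mem
    refine ⟨y⁻¹, ⟨(phi x (y⁻¹ * x * y))⁻¹, inv_pos.mpr hspos⟩, ⟨hx, hy1, ?_, ?_, ?_, ?_⟩, ?_⟩
    · intro h; exact hyC (by simpa using h)
    · simpa using hcy'
    · simpa using hcy
    · simp only [inv_inv]
      have h3 := phi_conj hx hcy hxy'
      have e : y⁻¹ * (y * x * y⁻¹) * y = x := by group
      rw [e, phi_self hx] at h3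
      exact (eq_inv_of_mul_eq_one_right h3.symm)
    · intro h
      apply hsS
      have := hSinv _ h
      simpa using this

/-- If `x` is scaled by `s`, outside a neighbourhood of `S`, then the group is not in `VS S`. -/
theorem Scal.not_mem (h : Scal x Y t) {S : Set ℝ} (hs : Sep S t) : LGroup.of A ∉ VS S := by
  rintro ⟨-, h1⟩
  obtain ⟨p, q, p', q', h2, h3, h4⟩ := hs.exists_adm
  have hT : (LGroup.of A).IsTotal := fun a b => le_total (α := A) a b
  have h5 := (sat_eps_iff_of_total hT p q p' q').mp (h1 p q p' q' h2) x Y h.hx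
  apply h5
  have hxC := self_mem_Cx h.hx
  have hyC := h.conj _ hxC
  constructor
  · change x ^ p < (Y⁻¹ * x * Y) ^ q
    by_contra hcon
    push Not at hcon
    have h6 := phi_mono h.hx ((Cx x).pow_mem hyC q) ((Cx x).pow_mem hxC p) hcon
    rw [phi_pow h.hx hxC, phi_pow h.hx hyC, phi_self h.hx, h.scal] at h6
    linarith
  · change (Y⁻¹ * x * Y) ^ q' < x ^ p'
    by_contra hcon
    push Not at hcon
    have h6 := phi_mono h.hx ((Cx x).pow_mem hxC p') ((Cx x).pow_mem hyC q') hcon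
    rw [phi_pow h.hx hxC, phi_pow h.hx hyC, phi_self h.hx, h.scal] at h6
    linarith

end Rel

end Pool.Agent.Lib.MP_deb411_al
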