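import Pool.Agent.Lib.MP_deb411_al.Basic

namespace Pool.Agent.Lib.MP_deb411_al

section Ideals

variable {G : Type} [Group G] [Lattice G]

/-- Normal convex sub-l-groups. -/
structure IsLI (M : Set G) : Prop where
  one : (1 : G) ∈ M
  mul : ∀ a ∈ M, ∀ b ∈ M, a * b ∈ M
  inv : ∀ a ∈ M, a⁻¹ ∈ M
  conj : ∀ a ∈ M, ∀ y : G, y⁻¹ * a * y ∈ M
  sup : ∀ a ∈ M, a ⊔ 1 ∈ M
  conv : ∀ a ∈ M, ∀ u : G, 1 ≤ u → u ≤ a → u ∈ M

theorem IsLI.mem_of_parts [MulLeftMono G] {M : Set G} (h : IsLI M) {g : G}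
    (h1 : g ⊔ 1 ∈ M) (h2 : g⁻¹ ⊔ 1 ∈ M) : g ∈ M := by
  have : g = (g ⊔ 1) * (g⁻¹ ⊔ 1)⁻¹ := by
    rw [eq_mul_inv_iff_mul_eq, mul_sup, mul_inv_cancel, mul_one, sup_comm]
  rw [this]
  exact h.mul _ h1 _ (h.inv _ h2)

/-- The polar of `v` relative to `M`. -/
def Pol (M : Set G) (v : G) : Set G :=
  {u | ∃ p : G, 1 ≤ p ∧ u ≤ p ∧ u⁻¹ ≤ p ∧ ∀ y : G, p ⊓ (y⁻¹ * v * y) ∈ M}

variable [MulLeftMono G] [MulRightMono G]

theorem conj_mono (y : G) {a b : G} (h : a ≤ b) : y⁻¹ * a * y ≤ y⁻¹ * b * y :=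
  mul_le_mul_left (mul_le_mul_right h _) _

theorem one_le_conj (y : G) {a : G} (h : 1 ≤ a) : 1 ≤ y⁻¹ * a * y := by
  have := conj_mono y h
  simpa using this

theorem conj_inf (y a b : G) : y⁻¹ * (a ⊓ b) * y = (y⁻¹ * a * y) ⊓ (y⁻¹ * b * y) := by
  rw [mul_inf, inf_mul]

theorem inf_mul_le {a b v : G} (ha : 1 ≤ a) (hb : 1 ≤ b) (hv : 1 ≤ v) :
    (a * b) ⊓ v ≤ (a ⊓ v) * (b ⊓ v) := by
  rw [inf_mul, mul_inf, mul_inf]
  refine le_inf (le_inf inf_le_left ?_) (le_inf ?_ ?_)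
  · exact inf_le_right.trans (le_mul_of_one_le_left' ha)
  · exact inf_le_right.trans (le_mul_of_one_le_right' hb)
  · exact inf_le_right.trans (le_mul_of_one_le_right' hv)

theorem isLI_pol {M : Set G} (hM : IsLI M) {v : G} (hv : 1 ≤ v) : IsLI (Pol M v) := by
  have key : ∀ p q : G, 1 ≤ p → 1 ≤ q → (∀ y : G, p ⊓ (y⁻¹ * v * y) ∈ M) →
      (∀ y : G, q ⊓ (y⁻¹ * v * y) ∈ M) → ∀ y : G, (p * q) ⊓ (y⁻¹ * v * y) ∈ M := by
    intro p q hp hq h1 h2 y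
    refine hM.conv _ (hM.mul _ (h1 y) _ (h2 y)) _ ?_ (inf_mul_le hp hq (one_le_conj y hv))
    exact le_inf (one_le_mul hp hq) (one_le_conj y hv)
  refine ⟨?_, ?_, ?_, ?_, ?_, ?_⟩
  · refine ⟨1, le_refl _, le_refl _, by simp, fun y => ?_⟩
    rw [inf_eq_left.mpr (one_le_conj y hv)]
    exact hM.one
  · rintro a ⟨p, hp, hap, hap', h1⟩ b ⟨q, hq, hbq, hbq', h2⟩
    refine ⟨p * q * p, one_le_mul (one_le_mul hp hq) hp, ?_, ?_, ?_⟩
    · exact (mul_le_mul' hap hbq).trans (le_mul_of_one_le_right' hp)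
    · rw [mul_inv_rev]
      refine (mul_le_mul' hbq' hap').trans ?_
      rw [mul_assoc]
      exact le_mul_of_one_le_left' hp
    · exact key _ _ (one_le_mul hp hq) hp (key _ _ hp hq h1 h2) h1
  · rintro a ⟨p, hp, hap, hap', h1⟩
    exact ⟨p, hp, hap', by simpa using hap, h1⟩
  · rintro a ⟨p, hp, hap, hap', h1⟩ y
    refine ⟨y⁻¹ * p * y, one_le_conj y hp, conj_mono y hap, ?_, fun z => ?_⟩
    · have := conj_mono y hap'
      simpa [mul_assoc] using this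
    · have h2 := hM.conj _ (h1 (z * y⁻¹)) y
      rw [conj_inf] at h2
      convert h2 using 2
      simp [mul_assoc]
  · rintro a ⟨p, hp, hap, hap', h1⟩
    refine ⟨p, hp, sup_le hap hp, ?_, h1⟩
    rw [inv_sup, inv_one]
    exact inf_le_right.trans hp
  · rintro a ⟨p, hp, hap, hap', h1⟩ u hu hua
    exact ⟨p, hp, hua.trans hap, (inv_le_one'.mpr hu).trans hp, h1⟩

theorem subset_pol {M : Set G} (hM : IsLI M) {v : G} (hv : 1 ≤ v) : M ⊆ Pol M v := by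
  intro m hm
  have hp : (m ⊔ 1) * (m⁻¹ ⊔ 1) ∈ M := hM.mul _ (hM.sup _ hm) _ (hM.sup _ (hM.inv _ hm))
  have h1 : 1 ≤ (m ⊔ 1) * (m⁻¹ ⊔ 1) := one_le_mul le_sup_right le_sup_right
  refine ⟨(m ⊔ 1) * (m⁻¹ ⊔ 1), h1, ?_, ?_, fun y => ?_⟩
  · exact le_sup_left.trans (le_mul_of_one_le_right' le_sup_right)
  · exact (le_sup_left (a := m⁻¹) (b := 1)).trans (le_mul_of_one_le_left' le_sup_right)
  · exact hM.conv _ hp _ (le_inf h1 (one_le_conj y hv)) inf_le_left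

/-- A maximal l-ideal not containing `g`, in an l-group satisfying the identity of
representability, is prime. -/
theorem prime_of_maximal {M : Set G} (hM : IsLI M) {g : G} (hg : g ∉ M)
    (hmax : ∀ M' : Set G, IsLI M' → M ⊆ M' → g ∉ M' → M' ⊆ M)
    (hrep : ∀ x y : G, (x ⊔ 1) ⊓ (y⁻¹ * (x⁻¹ ⊔ 1) * y) = 1) (c : G) :
    c ⊔ 1 ∈ M ∨ c⁻¹ ⊔ 1 ∈ M := by
  by_contra hcon
  push Not at hcon
  obtain ⟨h1, h2⟩ := hcon
  have hP : g ∈ Pol M (c⁻¹ ⊔ 1) := by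
    by_contra hg'
    have := hmax _ (isLI_pol hM le_sup_right) (subset_pol hM le_sup_right) hg'
    apply h1
    apply this
    refine ⟨c ⊔ 1, le_sup_right, le_refl _, ?_, fun y => ?_⟩
    · rw [inv_sup, inv_one]
      exact inf_le_right.trans le_sup_right
    · rw [hrep]
      exact hM.one
  obtain ⟨p, hp, hgp, hgp', h3⟩ := hP
  have hP' : g ∈ Pol M p := by
    by_contra hg'
    have := hmax _ (isLI_pol hM hp) (subset_pol hM hp) hg'
    apply h2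
    apply this
    refine ⟨c⁻¹ ⊔ 1, le_sup_right, le_refl _, ?_, fun y => ?_⟩
    · rw [inv_sup, inv_one]
      exact inf_le_right.trans le_sup_right
    · have h4 := hM.conj _ (h3 y⁻¹) y
      rw [conj_inf] at h4
      rw [inf_comm]
      convert h4 using 2
      simp [mul_assoc]
  obtain ⟨p', hp', hgp1, hgp1', h5⟩ := hP'
  have h6 := h5 1
  simp only [inv_one, one_mul, mul_one] at h6
  apply hg
  apply hM.mem_of_parts
  · exact hM.conv _ h6 _ le_sup_right (sup_le (le_inf hgp1 hgp) (le_inf hp' hp))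
  · exact hM.conv _ h6 _ le_sup_right (sup_le (le_inf hgp1' hgp') (le_inf hp' hp))

omit [MulLeftMono G] [MulRightMono G] in
theorem exists_maximal {g : G} (hg : g ≠ 1) (h1 : IsLI ({1} : Set G)) :
    ∃ M : Set G, IsLI M ∧ g ∉ M ∧ ∀ M' : Set G, IsLI M' → M ⊆ M' → g ∉ M' → M' ⊆ M := by
  have hz := zorn_subset_nonempty {M : Set G | IsLI M ∧ g ∉ M} (by
    intro c hc hchain hne
    refine ⟨⋃₀ c, ⟨?_, ?_⟩, fun s hs => Set.subset_sUnion_of_mem hs⟩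
    · have two : ∀ a b : G, a ∈ ⋃₀ c → b ∈ ⋃₀ c → ∃ M ∈ c, a ∈ M ∧ b ∈ M := by
        rintro a b ⟨M, hM, ha⟩ ⟨M', hM', hb⟩
        rcases hchain.total hM hM' with h | h
        · exact ⟨M', hM', h ha, hb⟩
        · exact ⟨M, hM, ha, h hb⟩
      obtain ⟨M0, hM0⟩ := hne
      refine ⟨⟨M0, hM0, (hc hM0).1.one⟩, ?_, ?_, ?_, ?_, ?_⟩
      · intro a ha b hb
        obtain ⟨M, hM, ha', hb'⟩ := two a b ha hb
        exact ⟨M, hM, (hc hM).1.mul _ ha' _ hb'⟩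
      · rintro a ⟨M, hM, ha⟩
        exact ⟨M, hM, (hc hM).1.inv _ ha⟩
      · rintro a ⟨M, hM, ha⟩ y
        exact ⟨M, hM, (hc hM).1.conj _ ha y⟩
      · rintro a ⟨M, hM, ha⟩
        exact ⟨M, hM, (hc hM).1.sup _ ha⟩
      · rintro a ⟨M, hM, ha⟩ u hu hua
        exact ⟨M, hM, (hc hM).1.conv _ ha u hu hua⟩
    · rintro ⟨M, hM, hgM⟩
      exact (hc hM).2 hgM) {1} ⟨h1, by simpa using hg⟩
  obtain ⟨M, -, hM⟩ := hz
  refine ⟨M, hM.prop.1, hM.prop.2, fun M' h1 h2 h3 => ?_⟩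
  exact hM.le_of_ge ⟨h1, h3⟩ h2

omit [MulRightMono G] in
theorem isLI_one [MulRightMono G] : IsLI ({1} : Set G) where
  one := rfl
  mul := by rintro a rfl b rfl; simp
  inv := by rintro a rfl; simp
  conj := by rintro a rfl y; simp
  sup := by rintro a rfl; simp
  conv := by rintro a rfl u h1 h2; exact le_antisymm h2 h1

end Ideals

end Pool.Agent.Lib.MP_deb411_al
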